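import Pool.Agent.Lib.MP_b9fd58_lc.Fin2

/-!
# The theory of modules over a string algebra is decidable

For every string algebra `A = kQ/I` (domestic or not) over every effectively given field `k`, finite or infinite, the first-order
theory of right `A`-modules is decidable. Definitions: `Pool/Agent/Lib/MP_b9fd58_lc/Defs.lean`.
-/

namespace Pool.Agent.Results.MP_b9fd58_lc.DecidableTheory

open StrAlg

/-- **Main theorem.** `D` presents a string algebra `Alg D k`, and `k` is a field with coded elements and computable addition and
multiplication. Then there is a computable function which decides, from the Goedel code of a sentence of the language of right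
`Alg D k`-modules, whether the sentence holds in all modules. -/
theorem result (D : Dat) (hD : D.IsString) (k : Type) [Field k] [Primcodable k]
    (hadd : Computable₂ (fun a b : k => a + b)) (hmul : Computable₂ (fun a b : k => a * b)) :
    ∃ f : List (Sym D k) → Bool, Computable f ∧
      ∀ φ : Fm D k, φ.IsSentence →
        (f φ.code = true ↔
          ∀ (M : Type) [AddCommGroup M] [Module (Alg D k)ᵐᵒᵖ M], φ.Sat M (fun _ => 0)) :=
  decidable_all D hD k hadd hmul

end Pool.Agent.Results.MP_b9fd58_lc.DecidableTheory
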